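import Pool.Agent.Helper69.SHT.St

set_option autoImplicit false

namespace Pool.Agent.Helper42.SHT

open Finset Filter Pool.Agent.Helper82.CN Pool.Agent.Helper11.PV Pool.Agent.Helper69.VX
  Pool.Agent.Helper69.UX Pool.Agent.Helper69.SHT

private lemma bb_pos {p : ℝ} (h0 : 0 < p) (h1 : p ≤ 1 - 1 / Real.exp 2) : 0 < bb p := by
  have he : 0 < 1 / Real.exp 2 := by positivity
  have h2 : 0 < 1 - p := by linarith
  have h3 : 1 - p < 1 := by linarith
  unfold bb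
  apply Real.log_pos
  rw [lt_div_iff₀ h2]; linarith

private lemma bb_le {p : ℝ} (h1 : p ≤ 1 - 1 / Real.exp 2) : bb p ≤ 2 := by
  have he : 0 < 1 / Real.exp 2 := by positivity
  have h2 : 0 < 1 - p := by linarith
  unfold bb
  rw [Real.log_le_iff_le_exp (by positivity), div_le_iff₀ h2]
  have h4 : 1 / Real.exp 2 ≤ 1 - p := by linarith
  have h5 : 0 < Real.exp 2 := Real.exp_pos 2
  calc (1 : ℝ) = Real.exp 2 * (1 / Real.exp 2) := by field_simp
    _ ≤ Real.exp 2 * (1 - p) := by gcongr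

private lemma al_tendsto {p : ℝ} (hb : 0 < bb p) (K : ℝ) : ∀ᶠ N : ℕ in atTop, K ≤ al p N := by
  have hL : Tendsto (fun N : ℕ => Real.log (N : ℝ)) atTop atTop :=
    Real.tendsto_log_atTop.comp tendsto_natCast_atTop_atTop
  have h1 := hL.eventually (eventually_ge_atTop (1 : ℝ))
  have h2 := hL.eventually (eventually_ge_atTop
    (bb p * (K - 1) - 2 * (1 + Real.log (bb p / 2) + (1 - Real.log 2))))
  filter_upwards [h1, h2] with N h1 h2
  have hLp : 0 < Real.log (N : ℝ) := by linarith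
  have h3 : Real.log (Real.log (N : ℝ) / bb p) ≤ Real.log N / 2 - 1 - Real.log (bb p / 2) := by
    have h4 : Real.log (Real.log (N : ℝ) / 2) ≤ Real.log N / 2 - 1 :=
      Real.log_le_sub_one_of_pos (by positivity)
    have h5 : Real.log (N : ℝ) / bb p = (Real.log N / 2) / (bb p / 2) := by
      field_simp
    rw [h5, Real.log_div (by positivity) (by positivity)]
    linarith
  unfold Pool.Agent.Helper82.CN.al
  have h6 : K - 1 ≤ (2 * Real.log N - 2 * Real.log (Real.log N / bb p) + 2 * (1 - Real.log 2)) / bb p := by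
    rw [le_div_iff₀ hb]
    linarith
  have h7 : (2 * Real.log N - 2 * Real.log (Real.log N / bb p) + 2 * (1 - Real.log 2)) / bb p =
    2 * Real.log N / bb p - 2 * Real.log (Real.log N / bb p) / bb p + 2 * (1 - Real.log 2) / bb p := by
    ring
  linarith

private lemma al_upper {p : ℝ} (hb : 0 < bb p) : ∀ᶠ N : ℕ in atTop,
    al p N ≤ 2 * Real.log N / bb p := by
  have hL : Tendsto (fun N : ℕ => Real.log (N : ℝ)) atTop atTop :=
    Real.tendsto_log_atTop.comp tendsto_natCast_atTop_atTop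
  have h1 : Tendsto (fun N : ℕ => Real.log (Real.log (N : ℝ) / bb p)) atTop atTop :=
    Real.tendsto_log_atTop.comp (hL.atTop_div_const hb)
  filter_upwards [h1.eventually (eventually_ge_atTop (1 - Real.log 2 + bb p / 2))] with N h
  unfold Pool.Agent.Helper82.CN.al
  have h2 : 2 * (1 - Real.log 2) / bb p + 1 ≤ 2 * Real.log (Real.log (N : ℝ) / bb p) / bb p := by
    rw [div_add_one hb.ne']
    apply div_le_div_of_nonneg_right _ hb.le
    linarith
  linarith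

private lemma log_sq_small (K s : ℝ) (hs : 0 < s) : ∀ᶠ N : ℕ in atTop,
    K * (Real.log (N : ℝ)) ^ 2 ≤ (N : ℝ) ^ s := by
  have h := (isLittleO_log_rpow_rpow_atTop (s := s) (2 : ℝ) hs).const_mul_left K
  have h1 := (h.comp_tendsto tendsto_natCast_atTop_atTop).bound (show (0 : ℝ) < 1 by norm_num)
  filter_upwards [h1] with N h1
  simp only [Function.comp_apply, one_mul] at h1
  have h2 : ‖(N : ℝ) ^ s‖ = (N : ℝ) ^ s := by
    rw [Real.norm_eq_abs, abs_of_nonneg]; positivity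
  rw [h2] at h1
  have h3 : Real.log (N : ℝ) ^ (2 : ℝ) = Real.log (N : ℝ) ^ (2 : ℕ) := by
    rw [← Real.rpow_natCast]; norm_num
  rw [h3] at h1
  exact (le_abs_self _).trans h1

/-- Lipschitz -/
private lemma lip_iter {s : ℕ → ℝ} (lip : ∀ m, |s (m + 1) - s m| ≤ 1) (j k : ℕ) :
    s (j + k) ≤ s j + k := by
  induction k with
  | zero => simp
  | succ k ih =>
    have h := (abs_le.mp (lip (j + k))).2
    rw [show j + (k + 1) = j + k + 1 by ring]
    push_cast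
    linarith

private lemma alt_step {ε θ0 θ : ℝ} {N a n : ℕ} {f s : ℕ → ℝ} (hε : 0 < ε) (ha : 2 ≤ a)
    (hN : 1 ≤ N) (hn : N + a ≤ n) (hθ0 : ε ≤ θ0) (hθ : θ0 ≤ θ)
    (inc1 : f n - f (n - a) - 1 ≤ s n * (n : ℝ) ^ (-(θ / 2) + ε / 8))
    (inc2 : f n - f (n - (a - 1)) - 1 ≤ s n * (n : ℝ) ^ (-((θ + 1) / 2) + ε / 8))
    (lip : ∀ m, |s (m + 1) - s m| ≤ 1) (hs : s n ≤ √(2 * n))
    (hbig : 16 * (a : ℝ) ^ 2 / ε ≤ (N : ℝ) ^ (3 * ε / 8)) :
    f n ≤ f (n - a) + 1 + ε / (8 * a) ∨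
      (f n ≤ f (n - (a - 1)) + 1 + ε / (8 * a) ∧
        ∀ j, n - (a - 1) < j → j ≤ n → (N : ℝ) ^ (θ0 / 2 - ε) ≤ s j) := by
  have haR : (2 : ℝ) ≤ a := by exact_mod_cast ha
  have hNR : (1 : ℝ) ≤ N := by exact_mod_cast hN
  have hNn : (N : ℝ) ≤ n := by exact_mod_cast (by omega : N ≤ n)
  have hnR : (1 : ℝ) ≤ n := hNR.trans hNn
  have hN0 : (0 : ℝ) < N := by linarith
  have hn0 : (0 : ℝ) < n := by linarith
  by_cases hc : f n ≤ f (n - a) + 1 + ε / (8 * a)
  · exact Or.inl hc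
  right
  push Not at hc
  -- basic size
  have hP : (0 : ℝ) < (N : ℝ) ^ (3 * ε / 8) := by positivity
  have hNe : (N : ℝ) ^ (-(3 * ε / 8)) = ((N : ℝ) ^ (3 * ε / 8))⁻¹ := Real.rpow_neg hN0.le _
  have hsm : (N : ℝ) ^ (-(3 * ε / 8)) ≤ ε / (16 * (a : ℝ) ^ 2) := by
    rw [hNe]
    have h1 : ε / (16 * (a : ℝ) ^ 2) = (16 * (a : ℝ) ^ 2 / ε)⁻¹ := by
      rw [inv_div]
    rw [h1]
    exact inv_anti₀ (by positivity) hbig
  constructor
  · -- second increment
    have h1 : s n * (n : ℝ) ^ (-((θ + 1) / 2) + ε / 8) ≤ √(2 * n) * (n : ℝ) ^ (-((θ + 1) / 2) + ε / 8) := by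
      gcongr
    have h2 : √(2 * (n : ℝ)) = √2 * (n : ℝ) ^ ((1 : ℝ) / 2) := by
      rw [Real.sqrt_mul (by norm_num), Real.sqrt_eq_rpow (n : ℝ)]
    have h3 : √(2 * (n : ℝ)) * (n : ℝ) ^ (-((θ + 1) / 2) + ε / 8) = √2 * (n : ℝ) ^ (-(θ / 2) + ε / 8) := by
      rw [h2, mul_assoc, ← Real.rpow_add hn0]
      congr 2
      ring
    have h4 : (n : ℝ) ^ (-(θ / 2) + ε / 8) ≤ (n : ℝ) ^ (-(3 * ε / 8)) :=
      Real.rpow_le_rpow_of_exponent_le hnR (by linarith)
    have h5 : (n : ℝ) ^ (-(3 * ε / 8)) ≤ (N : ℝ) ^ (-(3 * ε / 8)) :=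
      Real.rpow_le_rpow_of_nonpos hN0 hNn (by linarith)
    have h6 : √2 ≤ 2 := by
      rw [Real.sqrt_le_left (by norm_num)]; norm_num
    have h7 : √2 * (n : ℝ) ^ (-(θ / 2) + ε / 8) ≤ 2 * (ε / (16 * (a : ℝ) ^ 2)) := by
      apply mul_le_mul h6 (h4.trans (h5.trans hsm)) (by positivity) (by norm_num)
    have h8 : 2 * (ε / (16 * (a : ℝ) ^ 2)) ≤ ε / (8 * a) := by
      rw [mul_div_assoc', div_le_div_iff₀ (by positivity) (by positivity)]
      nlinarith [mul_pos hε (by linarith : (0 : ℝ) < a)]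
    linarith
  · -- large deviation
    have hsn : ε / (8 * a) * (n : ℝ) ^ (θ / 2 - ε / 8) < s n := by
      have h1 : ε / (8 * a) < s n * (n : ℝ) ^ (-(θ / 2) + ε / 8) := by linarith
      have h2 : (n : ℝ) ^ (-(θ / 2) + ε / 8) * (n : ℝ) ^ (θ / 2 - ε / 8) = 1 := by
        rw [← Real.rpow_add hn0]
        ring_nf
        simp
      have h3 : (0 : ℝ) < (n : ℝ) ^ (θ / 2 - ε / 8) := by positivity
      calc ε / (8 * a) * (n : ℝ) ^ (θ / 2 - ε / 8)
          < (s n * (n : ℝ) ^ (-(θ / 2) + ε / 8)) * (n : ℝ) ^ (θ / 2 - ε / 8) := by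
            gcongr
        _ = s n * ((n : ℝ) ^ (-(θ / 2) + ε / 8) * (n : ℝ) ^ (θ / 2 - ε / 8)) := by ring
        _ = s n := by rw [h2, mul_one]
    have h4 : (N : ℝ) ^ (θ0 / 2 - ε / 8) ≤ (n : ℝ) ^ (θ / 2 - ε / 8) := by
      calc (N : ℝ) ^ (θ0 / 2 - ε / 8) ≤ (n : ℝ) ^ (θ0 / 2 - ε / 8) := by
            apply Real.rpow_le_rpow hN0.le hNn
            linarith
        _ ≤ (n : ℝ) ^ (θ / 2 - ε / 8) := Real.rpow_le_rpow_of_exponent_le hnR (by linarith)
    set Q : ℝ := (N : ℝ) ^ (θ0 / 2 - ε / 8) with hQ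
    have hQ1 : (N : ℝ) ^ (3 * ε / 8) ≤ Q := Real.rpow_le_rpow_of_exponent_le hNR (by linarith)
    have hQ0 : 0 < Q := by positivity
    have h5 : (N : ℝ) ^ (θ0 / 2 - ε) ≤ Q * (ε / (16 * (a : ℝ) ^ 2)) := by
      have h6 : (N : ℝ) ^ (θ0 / 2 - ε) = Q * (N : ℝ) ^ (-(7 * ε / 8)) := by
        rw [hQ, ← Real.rpow_add hN0]
        congr 1
        ring
      have h7 : (N : ℝ) ^ (-(7 * ε / 8)) ≤ (N : ℝ) ^ (-(3 * ε / 8)) :=
        Real.rpow_le_rpow_of_exponent_le hNR (by linarith)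
      rw [h6]
      exact mul_le_mul_of_nonneg_left (h7.trans hsm) hQ0.le
    have h6 : (a : ℝ) ≤ Q * (ε / (16 * (a : ℝ) ^ 2)) * a := by
      have h7 : 16 * (a : ℝ) ^ 2 / ε ≤ Q := hbig.trans hQ1
      have h8 : (1 : ℝ) ≤ Q * (ε / (16 * (a : ℝ) ^ 2)) := by
        rw [div_le_iff₀ hε] at h7
        rw [mul_div_assoc', le_div_iff₀ (by positivity)]
        linarith
      nlinarith
    have h9 : (N : ℝ) ^ (θ0 / 2 - ε) + a ≤ s n := by
      have h10 : Q * (ε / (16 * (a : ℝ) ^ 2)) + Q * (ε / (16 * (a : ℝ) ^ 2)) * a ≤ ε / (8 * a) * Q := by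
        have h11 : ε / (8 * a) * Q - (Q * (ε / (16 * (a : ℝ) ^ 2)) + Q * (ε / (16 * (a : ℝ) ^ 2)) * a) =
          Q * (ε / (16 * (a : ℝ) ^ 2)) * (a - 1) := by
          field_simp
          ring
        have h12 : 0 ≤ Q * (ε / (16 * (a : ℝ) ^ 2)) * (a - 1) := by
          apply mul_nonneg (by positivity); linarith
        linarith
      have h13 : ε / (8 * a) * Q ≤ ε / (8 * a) * (n : ℝ) ^ (θ / 2 - ε / 8) := by gcongr
      linarith
    intro j hj1 hj2
    obtain ⟨k, rfl⟩ := Nat.exists_eq_add_of_le hj2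
    have h14 := lip_iter lip j k
    have h15 : (k : ℝ) ≤ a := by exact_mod_cast (by omega : k ≤ a)
    linarith

/-- the final computation: `y = θ + δ'`, `s` the error of the slope -/
private lemma final_calc {ε A W fN fN' D θ s : ℝ} (hε : 0 < ε) (hε1 : ε ≤ 1 / 2)
    (hA : 2 ≤ A) (hAε : 16 ≤ ε * A) (hW : 0 ≤ W) (hθ0 : 0 ≤ θ) (hθ1 : θ ≤ 1 - ε)
    (hs : A ^ 2 * s ≤ ε / 64) (hs0 : 0 ≤ s)
    (hA3 : A ^ 3 ≤ ε / 64 * W)
    (hlow : W / (A - 1 + θ + ε / 8) - s * W ≤ fN' - fN)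
    (hwin : fN' ≤ fN + A + (1 + ε / (8 * A)) / A * W +
      ((1 + ε / (8 * A)) / (A - 1) - (1 + ε / (8 * A)) / A) * D) :
    (1 - θ - ε) * W ≤ D := by
  have hA0 : 0 < A := by linarith
  have hA1 : 0 < A - 1 := by linarith
  set e : ℝ := ε / (8 * A) with he
  have he0 : 0 < e := by positivity
  have he1 : e * A = ε / 8 := by rw [he]; field_simp
  have he2 : e ≤ ε / 8 := by
    have : e * 1 ≤ e * A := by gcongr; linarith
    linarith
  obtain ⟨y, hy⟩ : ∃ y : ℝ, y = θ + ε / 8 := ⟨_, rfl⟩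
  have hy0 : 0 ≤ y := by rw [hy]; linarith
  have hy1 : y ≤ 1 := by rw [hy]; linarith
  have hG : A - 1 + θ + ε / 8 = A - 1 + y := by rw [hy]; ring
  rw [hG] at hlow
  have hG0 : 0 < A - 1 + y := by linarith
  have hk : (1 + e) / (A - 1) - (1 + e) / A = (1 + e) / (A * (A - 1)) := by
    field_simp
    ring
  rw [hk] at hwin
  have hD : A * (A - 1) * (fN' - fN - A - (1 + e) / A * W) ≤ (1 + e) * D := by
    have h1 : A * (A - 1) * (fN' - fN - A - (1 + e) / A * W) ≤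
        A * (A - 1) * ((1 + e) / (A * (A - 1)) * D) := by
      apply mul_le_mul_of_nonneg_left _ (by positivity)
      linarith
    have h2 : A * (A - 1) * ((1 + e) / (A * (A - 1)) * D) = (1 + e) * D := by
      field_simp
    linarith
  have hL : (1 - y) * W - W / A ≤ A * (A - 1) * (W / (A - 1 + y) - W / A) := by
    have h1 : A * (A - 1) * (W / (A - 1 + y) - W / A) = (1 - y) * W * ((A - 1) / (A - 1 + y)) := by
      field_simp
      ring
    have h2 : 1 - 1 / A ≤ (A - 1) / (A - 1 + y) := by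
      rw [le_div_iff₀ hG0]
      have h3 : (1 - 1 / A) * (A - 1 + y) = A - 1 - (1 - y) * (A - 1) / A := by
        field_simp
        ring
      have h4 : 0 ≤ (1 - y) * (A - 1) / A := by
        apply div_nonneg (mul_nonneg (by linarith) hA1.le) hA0.le
      linarith
    rw [h1]
    have h5 : 0 ≤ (1 - y) * W := mul_nonneg (by linarith) hW
    have h6 : (1 - y) * W * (1 - 1 / A) ≤ (1 - y) * W * ((A - 1) / (A - 1 + y)) := by gcongr
    have h7 : (1 - y) * W * (1 - 1 / A) = (1 - y) * W - (1 - y) * (W / A) := by ring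
    have h8 : (1 - y) * (W / A) ≤ 1 * (W / A) := by
      apply mul_le_mul_of_nonneg_right (by linarith) (by positivity)
    linarith
  have hT : A * (A - 1) * (W / (A - 1 + y) - W / A) - A * (A - 1) * (s * W) - A ^ 2 * (A - 1)
      - e * (A - 1) * W ≤ (1 + e) * D := by
    have h1 : A * (A - 1) * (W / (A - 1 + y) - s * W - A - (1 + e) / A * W) ≤
        A * (A - 1) * (fN' - fN - A - (1 + e) / A * W) := by
      apply mul_le_mul_of_nonneg_left _ (by positivity)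
      linarith
    have h2 : A * (A - 1) * (W / (A - 1 + y) - s * W - A - (1 + e) / A * W) =
        A * (A - 1) * (W / (A - 1 + y) - W / A) - A * (A - 1) * (s * W) - A ^ 2 * (A - 1)
          - e * (A - 1) * W := by
      field_simp
      ring
    linarith
  have h1 : W / A ≤ ε / 16 * W := by
    rw [div_le_iff₀ hA0]
    have : W * 16 ≤ W * (ε * A) := by gcongr
    linarith
  have h2 : A * (A - 1) * (s * W) ≤ ε / 64 * W := by
    have h3 : A * (A - 1) * s ≤ A ^ 2 * s := by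
      have : A * (A - 1) ≤ A ^ 2 := by nlinarith
      gcongr
    have h4 : A * (A - 1) * (s * W) = A * (A - 1) * s * W := by ring
    rw [h4]
    gcongr
    linarith
  have h3 : A ^ 2 * (A - 1) ≤ ε / 64 * W := by
    have h7 : A ^ 2 * (A - 1) = A ^ 3 - A ^ 2 := by ring
    have h8 : 0 ≤ A ^ 2 := sq_nonneg A
    linarith
  have h4 : e * (A - 1) * W ≤ ε / 8 * W := by
    have h7 : e * (A - 1) = e * A - e := by ring
    have h6 : e * (A - 1) ≤ ε / 8 := by linarith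
    gcongr
  have h5 : (1 - θ - ε / 2) * W ≤ (1 + e) * D := by
    have h6 : (1 - y) * W = (1 - θ) * W - ε / 8 * W := by rw [hy]; ring
    have h7 : (1 - θ - ε / 2) * W = (1 - θ) * W - ε / 2 * W := by ring
    have h8 : 0 ≤ ε * W := by positivity
    linarith
  have h6 : (1 + e) * ((1 - θ - ε) * W) ≤ (1 - θ - ε / 2) * W := by
    have h12 : (1 + e) * (1 - θ - ε) ≤ 1 - θ - ε / 2 := by
      have h13 : e * (1 - θ - ε) ≤ e * 1 := by
        apply mul_le_mul_of_nonneg_left <;> linarith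
      have h14 : (1 + e) * (1 - θ - ε) = (1 - θ - ε) + e * (1 - θ - ε) := by ring
      linarith
    calc (1 + e) * ((1 - θ - ε) * W) = ((1 + e) * (1 - θ - ε)) * W := by ring
      _ ≤ (1 - θ - ε / 2) * W := by gcongr
  exact le_of_mul_le_mul_left (h6.trans h5) (by linarith)

/-- size of the error terms of the slope -/
private lemma err_calc {ε θ θ' N W N' Q : ℝ} (hε : 0 < ε) (hε1 : ε ≤ 1 / 2) (hN : 1 ≤ N)
    (hW1 : N ^ (θ + ε) ≤ W) (hW2 : W ≤ N ^ (1 - ε)) (hN' : N' = N + W) (hθ0 : 1 / 2 ≤ θ)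
    (hθ1 : θ ≤ 1 - ε) (hθ' : θ' ≤ θ + ε / 8) (hQ : Q = N ^ (3 * ε / 8)) :
    W ^ 2 / N + 3 * N ^ (θ + 5 * (ε / 40)) + 2 * N' ^ (θ' + 5 * (ε / 40)) ≤ 12 / Q ^ 2 * W := by
  have hN0 : 0 < N := by linarith
  have hQ0 : 0 < Q := by rw [hQ]; positivity
  have hW0 : 0 < W := lt_of_lt_of_le (by positivity) hW1
  have hQ2 : Q ^ 2 = N ^ (3 * ε / 4) := by
    rw [hQ, ← Real.rpow_natCast, ← Real.rpow_mul hN0.le]
    congr 1
    push_cast
    ring
  have hQi : 1 / Q ^ 2 = N ^ (-(3 * ε / 4)) := by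
    rw [hQ2, Real.rpow_neg hN0.le, one_div]
  have hWN : W ≤ N := by
    calc W ≤ N ^ (1 - ε) := hW2
      _ ≤ N ^ (1 : ℝ) := Real.rpow_le_rpow_of_exponent_le hN (by linarith)
      _ = N := Real.rpow_one N
  have h1 : W ^ 2 / N ≤ 1 / Q ^ 2 * W := by
    rw [hQi]
    have h2 : W / N ≤ N ^ (-(3 * ε / 4)) := by
      rw [div_le_iff₀ hN0]
      have h3 : N ^ (-(3 * ε / 4)) * N = N ^ (1 - 3 * ε / 4) := by
        nth_rewrite 2 [← Real.rpow_one N]
        rw [← Real.rpow_add hN0]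
        congr 1
        ring
      rw [h3]
      exact hW2.trans (Real.rpow_le_rpow_of_exponent_le hN (by linarith))
    calc W ^ 2 / N = W / N * W := by ring
      _ ≤ N ^ (-(3 * ε / 4)) * W := by gcongr
  have key : ∀ x : ℝ, x ≤ θ + ε / 4 → N ^ x ≤ 1 / Q ^ 2 * W := by
    intro x hx
    rw [hQi]
    calc N ^ x ≤ N ^ (-(3 * ε / 4) + (θ + ε)) :=
          Real.rpow_le_rpow_of_exponent_le hN (by linarith)
      _ = N ^ (-(3 * ε / 4)) * N ^ (θ + ε) := Real.rpow_add hN0 _ _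
      _ ≤ N ^ (-(3 * ε / 4)) * W := by gcongr
  have h2 := key (θ + 5 * (ε / 40)) (by linarith)
  have h3 : N' ^ (θ' + 5 * (ε / 40)) ≤ 4 * (1 / Q ^ 2 * W) := by
    have hN'1 : 1 ≤ N' := by rw [hN']; linarith
    have h4 : N' ^ (θ' + 5 * (ε / 40)) ≤ N' ^ (θ + ε / 4) :=
      Real.rpow_le_rpow_of_exponent_le hN'1 (by linarith)
    have h5 : N' ^ (θ + ε / 4) ≤ (2 * N) ^ (θ + ε / 4) :=
      Real.rpow_le_rpow (by linarith) (by rw [hN']; linarith) (by linarith)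
    have h6 : (2 * N) ^ (θ + ε / 4) = 2 ^ (θ + ε / 4) * N ^ (θ + ε / 4) :=
      Real.mul_rpow (by norm_num) hN0.le
    have h7 : (2 : ℝ) ^ (θ + ε / 4) ≤ 4 := by
      calc (2 : ℝ) ^ (θ + ε / 4) ≤ 2 ^ (2 : ℝ) :=
            Real.rpow_le_rpow_of_exponent_le (by norm_num) (by linarith)
        _ = 4 := by norm_num
    have h8 := key (θ + ε / 4) le_rfl
    have h9 : (2 : ℝ) ^ (θ + ε / 4) * N ^ (θ + ε / 4) ≤ 4 * (1 / Q ^ 2 * W) := by
      apply mul_le_mul h7 h8 (by positivity) (by norm_num)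
    linarith
  have h10 : 12 / Q ^ 2 * W = 12 * (1 / Q ^ 2 * W) := by ring
  linarith

theorem hCTW : StSLO → StALN → StInc → StLip → StMcd → StWin → StCTW := by
  intro hSLO hALN hInc hLip hMcd hWin p ε hp0 hp1 hε
  have hb : 0 < bb p := bb_pos hp0 hp1
  have hb2 : bb p ≤ 2 := bb_le hp1
  have hp1' : p < 1 := by
    have he : 0 < 1 / Real.exp 2 := by positivity
    linarith
  by_cases hεh : 1 / 2 < ε
  · refine ⟨0, fun N W _ hf _ _ => ?_⟩
    have h1 : (1 - Int.fract (a0 p N) - ε) * (W : ℝ) ≤ 0 := by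
      apply mul_nonpos_of_nonpos_of_nonneg (by linarith) (by positivity)
    exact h1.trans (by positivity)
  have hε1 : ε ≤ 1 / 2 := not_lt.mp hεh
  obtain ⟨n1, h1⟩ := hInc p (ε / 8) hp0 hp1' (by positivity)
  obtain ⟨n2, h2⟩ := hSLO p (ε / 40) (ε / 8) hp0 hp1 (by positivity) (by linarith) (by positivity)
    (by linarith)
  have hL : Tendsto (fun N : ℕ => Real.log (N : ℝ)) atTop atTop :=
    Real.tendsto_log_atTop.comp tendsto_natCast_atTop_atTop
  have E1 := hL.eventually (eventually_ge_atTop (1 : ℝ))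
  have E2 := al_upper hb
  have E3 := log_sq_small (64 / (bb p ^ 2 * ε)) (3 * ε / 8) (by positivity)
  have E4 : ∀ᶠ N : ℕ in atTop, 16 / (bb p * ε) ≤ (N : ℝ) ^ ε :=
    ((tendsto_rpow_atTop hε).comp tendsto_natCast_atTop_atTop).eventually
      (eventually_ge_atTop (16 / (bb p * ε)))
  have E5 := al_tendsto hb (16 / ε + 3)
  obtain ⟨N0, hN0⟩ := eventually_atTop.mp ((((E1.and E2).and E3).and E4).and E5)
  refine ⟨max N0 (max (max n1 n2) 3), fun N W hN hf hW1 hW2 => ?_⟩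
  have hNN0 : N0 ≤ N := (le_max_left _ _).trans hN
  have hNr : max (max n1 n2) 3 ≤ N := (le_max_right _ _).trans hN
  have hNn1 : n1 ≤ N := (le_max_left n1 n2).trans ((le_max_left _ _).trans hNr)
  have hNn2 : n2 ≤ N := (le_max_right n1 n2).trans ((le_max_left _ _).trans hNr)
  have hN3 : 3 ≤ N := (le_max_right _ _).trans hNr
  have hN1 : 1 ≤ N := by omega
  obtain ⟨⟨⟨⟨F1, F2⟩, F3⟩, F4⟩, F5⟩ := hN0 N hNN0
  have hNR3 : (3 : ℝ) ≤ N := by exact_mod_cast hN3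
  have hNR : (0 : ℝ) < N := by linarith
  have hNR1 : (1 : ℝ) ≤ N := by linarith
  obtain ⟨θ, hθ⟩ : ∃ θ : ℝ, θ = Int.fract (a0 p N) := ⟨_, rfl⟩
  rw [← hθ] at hf hW1 ⊢
  by_cases hθε : 1 - ε < θ
  · have h3 : (1 - θ - ε) * (W : ℝ) ≤ 0 := by
      apply mul_nonpos_of_nonpos_of_nonneg (by linarith) (by positivity)
    exact h3.trans (by positivity)
  have hθ1 : θ ≤ 1 - ε := not_lt.mp hθε
  -- the integer a
  have h16 : 0 < 16 / ε := by positivity
  have hal0 : (0 : ℝ) ≤ a0 p N := by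
    have : 16 / ε + 3 ≤ al p N := F5
    have h3 : a0 p N = al p N := rfl
    linarith
  obtain ⟨a, ha⟩ : ∃ a : ℕ, a = ⌊a0 p N⌋₊ := ⟨_, rfl⟩
  have haθ : a0 p N = a + θ := by
    have h3 : (a : ℝ) = (⌊a0 p N⌋ : ℝ) := by
      rw [ha]
      exact natCast_floor_eq_intCast_floor hal0
    rw [h3, hθ]
    exact (Int.floor_add_fract _).symm
  have haθ' : al p N = a + θ := haθ
  have haup : (a : ℝ) ≤ 2 * Real.log N / bb p := by linarith
  have halo : 16 / ε + 2 ≤ a := by linarith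
  have ha2R : (2 : ℝ) ≤ a := by linarith
  have ha2N : 2 ≤ a := by exact_mod_cast ha2R
  have haε : 16 ≤ ε * a := by
    have h3 : 16 / ε ≤ a := by linarith
    rw [div_le_iff₀ hε] at h3
    linarith
  have hbig : 16 * (a : ℝ) ^ 2 / ε ≤ (N : ℝ) ^ (3 * ε / 8) := by
    refine le_trans ?_ F3
    have h : 16 * (a : ℝ) ^ 2 / ε ≤ 16 * (2 * Real.log N / bb p) ^ 2 / ε := by gcongr
    refine h.trans (le_of_eq ?_)
    field_simp
    ring
  -- N'
  obtain ⟨N', hN'⟩ : ∃ N' : ℕ, N' = N + W := ⟨_, rfl⟩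
  have hNN' : N ≤ N' := by omega
  have hNN'R : (N : ℝ) ≤ N' := by exact_mod_cast hNN'
  have hN'R : (N' : ℝ) = N + W := by rw [hN']; push_cast; ring
  rw [← hN']
  have hWN : (W : ℝ) / N ≤ (N : ℝ) ^ (-ε) := by
    rw [div_le_iff₀ hNR]
    have h3 : (N : ℝ) ^ (-ε) * N = (N : ℝ) ^ (1 - ε) := by
      nth_rewrite 2 [← Real.rpow_one (N : ℝ)]
      rw [← Real.rpow_add hNR]
      congr 1
      ring
    rw [h3]
    exact hW2
  obtain ⟨m1, m2⟩ := hALN p N N' hp0 hp1' hNR3 hNN'R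
  have m3 : a0 p N' - a0 p N ≤ ε / 8 := by
    refine m2.trans ?_
    have h3 : ((N' : ℝ) - N) / N = W / N := by rw [hN'R]; ring
    rw [h3]
    have h4 : (N : ℝ) ^ (-ε) ≤ bb p * ε / 16 := by
      rw [Real.rpow_neg hNR.le]
      have h5 : bb p * ε / 16 = (16 / (bb p * ε))⁻¹ := by rw [inv_div]
      rw [h5]
      exact inv_anti₀ (by positivity) F4
    calc 2 / bb p * ((W : ℝ) / N) ≤ 2 / bb p * (bb p * ε / 16) :=
          mul_le_mul_of_nonneg_left (hWN.trans h4) (by positivity)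
      _ = ε / 8 := by field_simp; norm_num
  obtain ⟨T, hT⟩ : ∃ T : ℕ, T = a - 1 := ⟨_, rfl⟩
  have hTR : (T : ℝ) = a - 1 := by
    rw [hT]
    push_cast [show 1 ≤ a by omega]
    ring
  have hWinN : Win p (ε / 40) N T θ := ⟨by rw [hTR]; linarith, hf, by linarith⟩
  have hWinN' : Win p (ε / 40) N' T (a0 p N' - a) := by
    refine ⟨by rw [hTR]; ring, by linarith, by linarith⟩
  have hslo := h2 N N' T θ (a0 p N' - a) hNn2 hNN' hWinN hWinN'
  have herr := err_calc (ε := ε) (θ := θ) (θ' := a0 p N' - a) (N := N) (W := W) (N' := N')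
    (Q := (N : ℝ) ^ (3 * ε / 8)) hε hε1 hNR1 hW1 hW2 hN'R hf hθ1 (by linarith) rfl
  obtain ⟨Q, hQ⟩ : ∃ Q : ℝ, Q = (N : ℝ) ^ (3 * ε / 8) := ⟨_, rfl⟩
  rw [← hQ] at herr
  have hbigQ : 16 * (a : ℝ) ^ 2 / ε ≤ Q := by rw [hQ]; exact hbig
  have hQ0 : 0 < Q := lt_of_lt_of_le (by positivity) hbigQ
  -- window lemma
  have hW := hWin (fn p) {n : ℕ | (N : ℝ) ^ (θ / 2 - ε) ≤ sn p n} N N' a (ε / (8 * a))
    ha2N hNN' (by positivity) (fun n => by
      have h := (hLip p n hp0.le hp1'.le).2.1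
      linarith) (fun n hn1 hn2 => by
      have hNn : N ≤ n := by omega
      have hNnR : (N : ℝ) ≤ n := by exact_mod_cast hNn
      have hnN'R : (n : ℝ) ≤ N' := by exact_mod_cast hn2
      have hm1 : al p N ≤ al p n := (hALN p N n hp0 hp1' hNR3 hNnR).1
      have hm2 : al p n ≤ al p N' := (hALN p n N' hp0 hp1' (by linarith) hnN'R).1
      have hm3 : al p N' = a0 p N' := rfl
      obtain ⟨i1, i2⟩ := h1 n a (by omega) (by linarith) (by linarith)
      have hs : sn p n ≤ √(2 * n) := by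
        unfold sn
        exact Real.sqrt_le_sqrt (hMcd p n 0 hp0.le hp1'.le (by omega) le_rfl).1
      exact alt_step (θ0 := θ) (θ := al p n - a) (s := sn p) hε ha2N hN1 hn1 (by linarith)
        (by linarith) i1 i2 (fun m => (hLip p m hp0.le hp1'.le).2.2) hs hbig)
  have hWnn : (0 : ℝ) ≤ W := by positivity
  have hQa : 16 * (a : ℝ) ^ 2 ≤ ε * Q := by
    rw [div_le_iff₀ hε] at hbigQ
    linarith
  have hQ32 : 32 * (a : ℝ) ^ 2 ≤ Q := by
    have h3 : ε * Q ≤ 1 / 2 * Q := by gcongr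
    linarith
  have hQ128 : 128 ≤ Q := by
    have h3 : (4 : ℝ) ≤ (a : ℝ) ^ 2 := by nlinarith
    linarith
  have hfin := final_calc (ε := ε) (A := a) (W := W) (fN := fn p N) (fN' := fn p N') (θ := θ)
    (s := 12 / Q ^ 2)
    (D := (((Ioc N N').filter (fun n : ℕ => n ∈ {n : ℕ | (N : ℝ) ^ (θ / 2 - ε) ≤ sn p n})).card : ℝ))
    hε hε1 ha2R haε hWnn (by linarith) hθ1
    (by
      rw [mul_div_assoc', div_le_iff₀ (by positivity)]
      have h3 : ε * Q ^ 2 = ε * Q * Q := by ring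
      have h4 : 16 * (a : ℝ) ^ 2 * 128 ≤ ε * Q * Q := by gcongr
      linarith [sq_nonneg (a : ℝ)]) (by positivity)
    (by
      have h3 : ε * Q ^ 2 = ε * Q * Q := by ring
      have h4 : 16 * (a : ℝ) ^ 2 * (32 * (a : ℝ) ^ 2) ≤ ε * Q * Q := by gcongr
      have h5 : Q ^ 2 ≤ W := by
        refine le_trans ?_ hW1
        rw [hQ, ← Real.rpow_natCast, ← Real.rpow_mul hNR.le]
        apply Real.rpow_le_rpow_of_exponent_le hNR1
        push_cast
        linarith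
      have h6 : ε * Q ^ 2 ≤ ε * W := by gcongr
      have h7 : (a : ℝ) ^ 3 ≤ (a : ℝ) ^ 4 := by
        apply pow_le_pow_right₀ (by linarith) (by norm_num)
      have h8 : 0 ≤ (a : ℝ) ^ 4 := by positivity
      have h9 : 16 * (a : ℝ) ^ 2 * (32 * (a : ℝ) ^ 2) = 512 * (a : ℝ) ^ 4 := by ring
      linarith)
    (by
      have h3 : (N' : ℝ) - N = W := by rw [hN'R]; ring
      rw [h3, hTR] at hslo
      have h4 : (a : ℝ) - 1 + θ + ε / 8 = a - 1 + θ + ε / 8 := rfl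
      linarith) (by
      have h3 : (N' : ℝ) - N = W := by rw [hN'R]; ring
      rw [h3] at hW
      convert hW using 3)
  simpa using hfin

end Pool.Agent.Helper42.SHT
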